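import Pool.Agent.R85.TwistGraph

/-!
# The twist graph of 3-colored triangulations is connected for `N = 14`

`H_14` has 140 vertices and is connected. So it is not true that `H_N` is disconnected for all
`N ≥ 8` with `N ≡ 2 mod 3`.
-/

set_option autoImplicit false

namespace Pool.Agent.Results.MP_b57ad3_co.ConnectedFourteen

open Pool.Agent.R85.TwistGraph

theorem result : (twistGraph 14).Connected ∧
    ¬ ∀ N : ℕ, 8 ≤ N → N % 3 = 2 → ¬ (twistGraph N).Connected :=
  ⟨connected_fourteen, fun h => h 14 (by omega) (by omega) connected_fourteen⟩

end Pool.Agent.Results.MP_b57ad3_co.ConnectedFourteen
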