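import Mathlib

/-!
# The twist graph of colorful triangulations of the 14-gon is connected
-/

namespace Pool.Agent.Results.MP_b57ad3_co.Fourteen

/-! ## Definitions -/

/-- The pair `p = (i, j)` is a diagonal of the convex `N`-gon with vertices `1, …, N`
(written with `i < j`). -/
def IsDiag (N : ℕ) (p : ℕ × ℕ) : Prop :=
  1 ≤ p.1 ∧ p.1 + 2 ≤ p.2 ∧ p.2 ≤ N ∧ ¬ (p.1 = 1 ∧ p.2 = N)

/-- The diagonals `p` and `q` cross. -/
def Cross (p q : ℕ × ℕ) : Prop :=
  (p.1 < q.1 ∧ q.1 < p.2 ∧ p.2 < q.2) ∨ (q.1 < p.1 ∧ p.1 < q.2 ∧ q.2 < p.2)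

/-- A triangulation of the `N`-gon: a maximal set of pairwise non-crossing diagonals. -/
def IsTriangulation (N : ℕ) (T : Finset (ℕ × ℕ)) : Prop :=
  (∀ p ∈ T, IsDiag N p) ∧ (∀ p ∈ T, ∀ q ∈ T, ¬ Cross p q) ∧
    ∀ p, IsDiag N p → (∀ q ∈ T, ¬ Cross p q) → p ∈ T

/-- The vertices `i < j` are joined by a side of the polygon or by a diagonal of `T`. -/
def Edge (N : ℕ) (T : Finset (ℕ × ℕ)) (i j : ℕ) : Prop :=
  (1 ≤ i ∧ j = i + 1 ∧ j ≤ N) ∨ (i = 1 ∧ j = N) ∨ (i, j) ∈ T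

/-- Every triangle `ijk` of `T` has three vertices of different colors, the color of the vertex `i`
being `i` modulo `3` (`1`: red, `2`: blue, `0`: green). -/
def Colorful (N : ℕ) (T : Finset (ℕ × ℕ)) : Prop :=
  ∀ i j k, i < j → j < k → Edge N T i j → Edge N T j k → Edge N T i k →
    i % 3 ≠ j % 3 ∧ j % 3 ≠ k % 3 ∧ i % 3 ≠ k % 3

/-- `T'` arises from `T` by a twist: for some hexagon `abcdef` (in cyclic order) whose sides are
sides of the polygon or diagonals of `T`, one of the two inner triangles `ace` and `bdf`, the sides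
of which are diagonals of `T`, is replaced by the other one. -/
def Twist (N : ℕ) (T T' : Finset (ℕ × ℕ)) : Prop :=
  ∃ a b c d e f : ℕ, a < b ∧ b < c ∧ c < d ∧ d < e ∧ e < f ∧
    Edge N T a b ∧ Edge N T b c ∧ Edge N T c d ∧ Edge N T d e ∧ Edge N T e f ∧ Edge N T a f ∧
    ((({(a, c), (c, e), (a, e)} : Finset (ℕ × ℕ)) ⊆ T ∧
        T' = (T \ {(a, c), (c, e), (a, e)}) ∪ {(b, d), (d, f), (b, f)}) ∨
      (({(b, d), (d, f), (b, f)} : Finset (ℕ × ℕ)) ⊆ T ∧
        T' = (T \ {(b, d), (d, f), (b, f)}) ∪ {(a, c), (c, e), (a, e)}))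

/-- The graph `𝓗_N`. -/
def twistGraph (N : ℕ) :
    SimpleGraph {T : Finset (ℕ × ℕ) // IsTriangulation N T ∧ Colorful N T} :=
  SimpleGraph.fromRel fun T T' => Twist N T.1 T'.1

/-! ## Triangulations are built recursively -/

lemma edge_bounds {N : ℕ} {T : Finset (ℕ × ℕ)} (hT : IsTriangulation N T) {i j : ℕ}
    (hij : i < j) (h : Edge N T i j) : 1 ≤ i ∧ j ≤ N := by
  rcases h with ⟨h1, _, h3⟩ | ⟨h1, h2⟩ | h
  · exact ⟨h1, h3⟩
  · exact ⟨by omega, by omega⟩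
  · have := hT.1 _ h
    exact ⟨this.1, this.2.2.1⟩

lemma exists_third {N : ℕ} {T : Finset (ℕ × ℕ)} (hT : IsTriangulation N T) {i j : ℕ}
    (hij : i + 2 ≤ j) (h : Edge N T i j) : ∃ k, i < k ∧ k < j ∧ Edge N T i k ∧ Edge N T k j := by
  classical
  obtain ⟨hi, hj⟩ := edge_bounds hT (by omega) h
  have hne : ((Finset.range j).filter fun k => i < k ∧ Edge N T i k).Nonempty :=
    ⟨i + 1, by
      rw [Finset.mem_filter, Finset.mem_range]
      exact ⟨by omega, by omega, Or.inl ⟨hi, rfl, by omega⟩⟩⟩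
  obtain ⟨k, hk, hmax⟩ := Finset.exists_max_image _ id hne
  rw [Finset.mem_filter, Finset.mem_range] at hk
  obtain ⟨hkj, hik, hek⟩ := hk
  have hmax' : ∀ k', k < k' → k' < j → ¬ Edge N T i k' := by
    intro k' h1 h2 h3
    have := hmax k' (by
      rw [Finset.mem_filter, Finset.mem_range]
      exact ⟨h2, by omega, h3⟩)
    simp only [id] at this
    omega
  refine ⟨k, hik, hkj, hek, ?_⟩
  by_cases hj1 : j = k + 1
  · exact Or.inl ⟨by omega, hj1, hj⟩
  refine Or.inr (Or.inr (hT.2.2 _ ⟨by simp only; omega, by simp only; omega, hj, by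
    simp only; omega⟩ ?_))
  intro q hq hcross
  have hqd := hT.1 q hq
  obtain ⟨q1, q2⟩ := q
  simp only [Cross] at hcross
  obtain ⟨hq1, hq2, hq3, hq4⟩ := hqd
  simp only at hq1 hq2 hq3 hq4
  rcases hcross with hc | hc
  · -- the diagonal `q` crosses `(i, j)`
    rcases h with h | h | h
    · omega
    · omega
    · exact hT.2.1 _ h _ hq (Or.inl ⟨by simp only; omega, by simp only; omega, by simp only; omega⟩)
  · rcases lt_trichotomy q1 i with h1 | h1 | h1
    · rcases h with h | h | h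
      · omega
      · omega
      · exact hT.2.1 _ h _ hq
          (Or.inr ⟨by simp only; omega, by simp only; omega, by simp only; omega⟩)
    · subst h1
      exact hmax' q2 (by omega) (by omega) (Or.inr (Or.inr hq))
    · rcases hek with h2 | h2 | h2
      · omega
      · omega
      · exact hT.2.1 _ h2 _ hq
          (Or.inl ⟨by simp only; omega, by simp only; omega, by simp only; omega⟩)

/-- The diagonal `(i, j)`, if it is not a side. -/
def seg (i j : ℕ) : List (ℕ × ℕ) := if j = i + 1 then [] else [(i, j)]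

/-- All colorful triangulations of the polygon `i, i + 1, …, j`. -/
def enum : ℕ → ℕ → ℕ → List (List (ℕ × ℕ))
  | 0, _, _ => []
  | n + 1, i, j => if j = i + 1 then [[]] else
      ((List.range' (i + 1) (j - (i + 1))).filter
        fun k => i % 3 ≠ j % 3 ∧ k % 3 ≠ i % 3 ∧ k % 3 ≠ j % 3).flatMap fun k =>
          (enum n i k).flatMap fun A => (enum n k j).map fun B => seg i k ++ (seg k j ++ (A ++ B))

lemma mem_enum {N : ℕ} {T : Finset (ℕ × ℕ)} (hT : IsTriangulation N T) (hC : Colorful N T)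
    (n : ℕ) : ∀ i j, i < j → j ≤ i + n → Edge N T i j →
      ∃ l ∈ enum n i j, ∀ p, p ∈ l ↔ (p ∈ T ∧ i ≤ p.1 ∧ p.2 ≤ j ∧ p ≠ (i, j)) := by
  induction n with
  | zero => intro i j h1 h2; omega
  | succ n ih =>
    intro i j hij hn he
    obtain ⟨hi, hj⟩ := edge_bounds hT hij he
    by_cases hj1 : j = i + 1
    · refine ⟨[], ?_, ?_⟩
      · rw [enum, if_pos hj1]
        exact List.mem_singleton.2 rfl
      · intro p
        simp only [List.not_mem_nil, false_iff, not_and]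
        intro hp h1 h2
        have := (hT.1 p hp).2.1
        omega
    · obtain ⟨k, hik, hkj, hek, hekj⟩ := exists_third hT (by omega) he
      have hcol := hC i k j hik hkj hek hekj he
      obtain ⟨A, hA, hA'⟩ := ih i k hik (by omega) hek
      obtain ⟨B, hB, hB'⟩ := ih k j hkj (by omega) hekj
      refine ⟨seg i k ++ (seg k j ++ (A ++ B)), ?_, ?_⟩
      · rw [enum, if_neg hj1, List.mem_flatMap]
        refine ⟨k, ?_, ?_⟩
        · rw [List.mem_filter, List.mem_range'_1]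
          refine ⟨⟨by omega, by omega⟩, ?_⟩
          simp only [decide_eq_true_eq]
          exact ⟨hcol.2.2, hcol.1.symm, hcol.2.1⟩
        · rw [List.mem_flatMap]
          exact ⟨A, hA, List.mem_map.2 ⟨B, hB, rfl⟩⟩
      · have hseg : ∀ x y, x < y → Edge N T x y → (x ≠ 1 ∨ y ≠ N) →
            ∀ p, p ∈ seg x y ↔ (p ∈ T ∧ p = (x, y)) := by
          intro x y hxy hexy hne p
          unfold seg
          split_ifs with hy
          · simp only [List.not_mem_nil, false_iff, not_and]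
            rintro hp rfl
            have := (hT.1 _ hp).2.1
            simp only at this
            omega
          · rw [List.mem_singleton]
            constructor
            · rintro rfl
              refine ⟨?_, rfl⟩
              rcases hexy with h | h | h
              · omega
              · omega
              · exact h
            · exact fun h => h.2
        intro p
        rw [List.mem_append, List.mem_append, List.mem_append,
          hseg i k hik hek (Or.inr (by omega)), hseg k j hkj hekj (Or.inl (by omega)), hA', hB']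
        obtain ⟨a, b⟩ := p
        simp only [Prod.mk.injEq, ne_eq]
        constructor
        · rintro (⟨hp, h1, h2⟩ | ⟨hp, h1, h2⟩ | ⟨hp, h1, h2, h3⟩ | ⟨hp, h1, h2, h3⟩)
          · exact ⟨hp, by omega, by omega, by omega⟩
          · exact ⟨hp, by omega, by omega, by omega⟩
          · exact ⟨hp, by omega, by omega, by omega⟩
          · exact ⟨hp, by omega, by omega, by omega⟩
        · rintro ⟨hp, h1, h2, h3⟩
          have hd := hT.1 _ hp
          obtain ⟨hd1, hd2, hd3, hd4⟩ := hd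
          simp only at hd1 hd2 hd3 hd4
          by_cases hbk : b ≤ k
          · by_cases hab : a = i ∧ b = k
            · exact Or.inl ⟨hp, hab.1, hab.2⟩
            · exact Or.inr (Or.inr (Or.inl ⟨hp, h1, hbk, hab⟩))
          · by_cases hak : k ≤ a
            · by_cases hab : a = k ∧ b = j
              · exact Or.inr (Or.inl ⟨hp, hab.1, hab.2⟩)
              · exact Or.inr (Or.inr (Or.inr ⟨hp, hak, h2, hab⟩))
            · exfalso
              by_cases hai : a = i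
              · -- crosses `(k, j)`
                rcases hekj with h | h | h
                · omega
                · omega
                · exact hT.2.1 _ h _ hp
                    (Or.inr ⟨by simp only; omega, by simp only; omega, by simp only; omega⟩)
              · rcases hek with h | h | h
                · omega
                · omega
                · exact hT.2.1 _ h _ hp
                    (Or.inl ⟨by simp only; omega, by simp only; omega, by simp only; omega⟩)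

/-! ## The certificate -/

/-- The colorful triangulations of the `14`-gon in breadth first order, each one with the index of
its parent, the hexagon of the twist leading to the parent, and the direction of the twist. -/
def data : List (List (ℕ × ℕ) × ℕ × (ℕ × ℕ × ℕ × ℕ × ℕ × ℕ) × Bool) :=
[
  ([(1, 3), (3, 14), (4, 14), (4, 6), (6, 14), (7, 14), (7, 9), (9, 14), (10, 14), (10, 12), (12, 14)], 0, (0, 0, 0, 0, 0, 0), true),
  ([(1, 3), (3, 14), (3, 7), (7, 14), (3, 5), (5, 7), (7, 9), (9, 14), (10, 14), (10, 12), (12, 14)], 0, (3, 4, 5, 6, 7, 14), true),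
  ([(1, 3), (3, 14), (4, 14), (4, 6), (6, 14), (6, 10), (10, 14), (6, 8), (8, 10), (10, 12), (12, 14)], 0, (6, 7, 8, 9, 10, 14), true),
  ([(1, 3), (3, 14), (4, 14), (4, 6), (6, 14), (7, 14), (7, 9), (9, 14), (9, 13), (9, 11), (11, 13)], 0, (9, 10, 11, 12, 13, 14), true),
  ([(1, 9), (9, 14), (1, 5), (5, 9), (1, 3), (3, 5), (5, 7), (7, 9), (10, 14), (10, 12), (12, 14)], 1, (1, 3, 5, 7, 9, 14), true),
  ([(1, 3), (3, 14), (3, 10), (10, 14), (3, 8), (8, 10), (3, 7), (3, 5), (5, 7), (10, 12), (12, 14)], 1, (3, 7, 8, 9, 10, 14), true),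
  ([(1, 3), (3, 14), (3, 7), (7, 14), (3, 5), (5, 7), (7, 9), (9, 14), (9, 13), (9, 11), (11, 13)], 1, (9, 10, 11, 12, 13, 14), true),
  ([(1, 3), (3, 14), (3, 10), (10, 14), (3, 5), (5, 10), (6, 10), (6, 8), (8, 10), (10, 12), (12, 14)], 2, (3, 4, 5, 6, 10, 14), true),
  ([(1, 3), (3, 14), (4, 14), (4, 12), (12, 14), (4, 8), (8, 12), (4, 6), (6, 8), (8, 10), (10, 12)], 2, (4, 6, 8, 10, 12, 14), true),
  ([(1, 3), (3, 14), (4, 14), (4, 6), (6, 14), (6, 13), (6, 11), (11, 13), (6, 10), (6, 8), (8, 10)], 2, (6, 10, 11, 12, 13, 14), true),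
  ([(1, 3), (3, 14), (4, 14), (4, 6), (6, 14), (6, 13), (6, 8), (8, 13), (9, 13), (9, 11), (11, 13)], 3, (6, 7, 8, 9, 13, 14), true),
  ([(1, 9), (9, 14), (2, 9), (2, 4), (4, 9), (5, 9), (5, 7), (7, 9), (10, 14), (10, 12), (12, 14)], 4, (1, 2, 3, 4, 5, 9), false),
  ([(1, 9), (9, 14), (1, 8), (1, 6), (6, 8), (1, 5), (1, 3), (3, 5), (10, 14), (10, 12), (12, 14)], 4, (1, 5, 6, 7, 8, 9), true),
  ([(1, 9), (9, 14), (1, 5), (5, 9), (1, 3), (3, 5), (5, 7), (7, 9), (9, 13), (9, 11), (11, 13)], 4, (9, 10, 11, 12, 13, 14), true),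
  ([(1, 12), (12, 14), (1, 8), (8, 12), (1, 3), (3, 8), (3, 7), (3, 5), (5, 7), (8, 10), (10, 12)], 5, (1, 3, 8, 10, 12, 14), true),
  ([(1, 3), (3, 14), (3, 10), (10, 14), (3, 8), (8, 10), (4, 8), (4, 6), (6, 8), (10, 12), (12, 14)], 5, (3, 4, 5, 6, 7, 8), false),
  ([(1, 3), (3, 14), (3, 13), (3, 11), (11, 13), (3, 10), (3, 8), (8, 10), (3, 7), (3, 5), (5, 7)], 5, (3, 10, 11, 12, 13, 14), true),
  ([(1, 3), (3, 14), (3, 13), (3, 8), (8, 13), (3, 7), (3, 5), (5, 7), (9, 13), (9, 11), (11, 13)], 6, (3, 7, 8, 9, 13, 14), true),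
  ([(1, 12), (12, 14), (1, 5), (5, 12), (1, 3), (3, 5), (5, 10), (10, 12), (6, 10), (6, 8), (8, 10)], 7, (1, 3, 5, 10, 12, 14), true),
  ([(1, 3), (3, 14), (3, 13), (3, 11), (11, 13), (3, 10), (3, 5), (5, 10), (6, 10), (6, 8), (8, 10)], 7, (3, 10, 11, 12, 13, 14), true),
  ([(1, 3), (3, 14), (3, 10), (10, 14), (3, 5), (5, 10), (5, 9), (5, 7), (7, 9), (10, 12), (12, 14)], 7, (5, 6, 7, 8, 9, 10), true),
  ([(1, 3), (3, 14), (3, 13), (3, 8), (8, 13), (4, 8), (4, 6), (6, 8), (8, 12), (8, 10), (10, 12)], 8, (3, 4, 8, 12, 13, 14), true),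
  ([(1, 3), (3, 14), (4, 14), (4, 12), (12, 14), (5, 12), (5, 7), (7, 12), (8, 12), (8, 10), (10, 12)], 8, (4, 5, 6, 7, 8, 12), false),
  ([(1, 3), (3, 14), (4, 14), (4, 12), (12, 14), (4, 11), (4, 9), (9, 11), (4, 8), (4, 6), (6, 8)], 8, (4, 8, 9, 10, 11, 12), true),
  ([(1, 3), (3, 14), (3, 13), (3, 5), (5, 13), (6, 13), (6, 11), (11, 13), (6, 10), (6, 8), (8, 10)], 9, (3, 4, 5, 6, 13, 14), true),
  ([(1, 3), (3, 14), (4, 14), (4, 6), (6, 14), (6, 13), (6, 11), (11, 13), (7, 11), (7, 9), (9, 11)], 9, (6, 7, 8, 9, 10, 11), false),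
  ([(1, 3), (3, 14), (3, 13), (3, 5), (5, 13), (6, 13), (6, 8), (8, 13), (9, 13), (9, 11), (11, 13)], 10, (3, 4, 5, 6, 13, 14), true),
  ([(1, 3), (3, 14), (4, 14), (4, 6), (6, 14), (6, 13), (6, 8), (8, 13), (8, 12), (8, 10), (10, 12)], 10, (8, 9, 10, 11, 12, 13), true),
  ([(1, 9), (9, 14), (2, 9), (2, 4), (4, 9), (4, 8), (4, 6), (6, 8), (10, 14), (10, 12), (12, 14)], 11, (4, 5, 6, 7, 8, 9), true),
  ([(1, 9), (9, 14), (2, 9), (2, 4), (4, 9), (5, 9), (5, 7), (7, 9), (9, 13), (9, 11), (11, 13)], 11, (9, 10, 11, 12, 13, 14), true),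
  ([(1, 9), (9, 14), (1, 8), (1, 6), (6, 8), (2, 6), (2, 4), (4, 6), (10, 14), (10, 12), (12, 14)], 12, (1, 2, 3, 4, 5, 6), false),
  ([(1, 9), (9, 14), (1, 8), (1, 6), (6, 8), (1, 5), (1, 3), (3, 5), (9, 13), (9, 11), (11, 13)], 12, (9, 10, 11, 12, 13, 14), true),
  ([(1, 12), (12, 14), (2, 12), (2, 7), (7, 12), (3, 7), (3, 5), (5, 7), (8, 12), (8, 10), (10, 12)], 14, (1, 2, 3, 7, 8, 12), false),
  ([(1, 12), (12, 14), (1, 11), (1, 9), (9, 11), (1, 8), (1, 3), (3, 8), (3, 7), (3, 5), (5, 7)], 14, (1, 8, 9, 10, 11, 12), true),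
  ([(1, 12), (12, 14), (1, 8), (8, 12), (1, 3), (3, 8), (4, 8), (4, 6), (6, 8), (8, 10), (10, 12)], 14, (3, 4, 5, 6, 7, 8), false),
  ([(1, 3), (3, 14), (4, 14), (4, 9), (9, 14), (4, 8), (4, 6), (6, 8), (10, 14), (10, 12), (12, 14)], 15, (3, 4, 8, 9, 10, 14), false),
  ([(1, 3), (3, 14), (3, 13), (3, 11), (11, 13), (3, 10), (3, 8), (8, 10), (4, 8), (4, 6), (6, 8)], 15, (3, 10, 11, 12, 13, 14), true),
  ([(1, 3), (3, 14), (3, 13), (3, 11), (11, 13), (3, 7), (7, 11), (3, 5), (5, 7), (7, 9), (9, 11)], 16, (3, 7, 8, 9, 10, 11), false),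
  ([(1, 3), (3, 14), (3, 13), (3, 8), (8, 13), (4, 8), (4, 6), (6, 8), (9, 13), (9, 11), (11, 13)], 17, (3, 4, 5, 6, 7, 8), false),
  ([(1, 3), (3, 14), (3, 13), (3, 8), (8, 13), (3, 7), (3, 5), (5, 7), (8, 12), (8, 10), (10, 12)], 17, (8, 9, 10, 11, 12, 13), true),
  ([(1, 12), (12, 14), (2, 12), (2, 4), (4, 12), (5, 12), (5, 10), (10, 12), (6, 10), (6, 8), (8, 10)], 18, (1, 2, 3, 4, 5, 12), false),
  ([(1, 12), (12, 14), (1, 11), (1, 6), (6, 11), (1, 5), (1, 3), (3, 5), (6, 10), (6, 8), (8, 10)], 18, (1, 5, 6, 10, 11, 12), true),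
  ([(1, 12), (12, 14), (1, 5), (5, 12), (1, 3), (3, 5), (5, 10), (10, 12), (5, 9), (5, 7), (7, 9)], 18, (5, 6, 7, 8, 9, 10), true),
  ([(1, 3), (3, 14), (3, 13), (3, 11), (11, 13), (4, 11), (4, 6), (6, 11), (6, 10), (6, 8), (8, 10)], 19, (3, 4, 5, 6, 10, 11), false),
  ([(1, 3), (3, 14), (3, 13), (3, 11), (11, 13), (3, 10), (3, 5), (5, 10), (5, 9), (5, 7), (7, 9)], 19, (5, 6, 7, 8, 9, 10), true),
  ([(1, 3), (3, 14), (4, 14), (4, 9), (9, 14), (5, 9), (5, 7), (7, 9), (10, 14), (10, 12), (12, 14)], 20, (3, 4, 5, 9, 10, 14), false),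
  ([(1, 3), (3, 14), (3, 13), (3, 5), (5, 13), (5, 12), (5, 7), (7, 12), (8, 12), (8, 10), (10, 12)], 22, (3, 4, 5, 12, 13, 14), true),
  ([(1, 3), (3, 14), (4, 14), (4, 12), (12, 14), (5, 12), (5, 7), (7, 12), (7, 11), (7, 9), (9, 11)], 22, (7, 8, 9, 10, 11, 12), true),
  ([(1, 3), (3, 14), (3, 13), (3, 11), (11, 13), (4, 11), (4, 9), (9, 11), (4, 8), (4, 6), (6, 8)], 23, (3, 4, 11, 12, 13, 14), true),
  ([(1, 3), (3, 14), (4, 14), (4, 12), (12, 14), (4, 11), (4, 9), (9, 11), (5, 9), (5, 7), (7, 9)], 23, (4, 5, 6, 7, 8, 9), false),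
  ([(1, 3), (3, 14), (3, 13), (3, 5), (5, 13), (5, 12), (5, 10), (10, 12), (6, 10), (6, 8), (8, 10)], 24, (5, 6, 10, 11, 12, 13), true),
  ([(1, 3), (3, 14), (3, 13), (3, 5), (5, 13), (6, 13), (6, 11), (11, 13), (7, 11), (7, 9), (9, 11)], 24, (6, 7, 8, 9, 10, 11), false),
  ([(1, 3), (3, 14), (4, 14), (4, 6), (6, 14), (7, 14), (7, 12), (12, 14), (7, 11), (7, 9), (9, 11)], 25, (6, 7, 11, 12, 13, 14), false),
  ([(1, 3), (3, 14), (3, 13), (3, 5), (5, 13), (5, 9), (9, 13), (5, 7), (7, 9), (9, 11), (11, 13)], 26, (5, 6, 7, 8, 9, 13), true),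
  ([(1, 3), (3, 14), (3, 13), (3, 5), (5, 13), (6, 13), (6, 8), (8, 13), (8, 12), (8, 10), (10, 12)], 26, (8, 9, 10, 11, 12, 13), true),
  ([(1, 3), (3, 14), (4, 14), (4, 6), (6, 14), (7, 14), (7, 12), (12, 14), (8, 12), (8, 10), (10, 12)], 27, (6, 7, 8, 12, 13, 14), false),
  ([(1, 9), (9, 14), (1, 8), (1, 3), (3, 8), (4, 8), (4, 6), (6, 8), (10, 14), (10, 12), (12, 14)], 28, (1, 2, 3, 4, 8, 9), true),
  ([(1, 9), (9, 14), (2, 9), (2, 4), (4, 9), (4, 8), (4, 6), (6, 8), (9, 13), (9, 11), (11, 13)], 28, (9, 10, 11, 12, 13, 14), true),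
  ([(1, 9), (9, 14), (2, 9), (2, 7), (7, 9), (2, 6), (2, 4), (4, 6), (10, 14), (10, 12), (12, 14)], 30, (1, 2, 6, 7, 8, 9), false),
  ([(1, 9), (9, 14), (1, 8), (1, 6), (6, 8), (2, 6), (2, 4), (4, 6), (9, 13), (9, 11), (11, 13)], 30, (9, 10, 11, 12, 13, 14), true),
  ([(1, 12), (12, 14), (2, 12), (2, 7), (7, 12), (2, 6), (2, 4), (4, 6), (8, 12), (8, 10), (10, 12)], 32, (2, 3, 4, 5, 6, 7), true),
  ([(1, 12), (12, 14), (2, 12), (2, 7), (7, 12), (3, 7), (3, 5), (5, 7), (7, 11), (7, 9), (9, 11)], 32, (7, 8, 9, 10, 11, 12), true),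
  ([(1, 12), (12, 14), (1, 11), (1, 9), (9, 11), (2, 9), (2, 7), (7, 9), (3, 7), (3, 5), (5, 7)], 33, (1, 2, 3, 7, 8, 9), false),
  ([(1, 12), (12, 14), (1, 11), (1, 9), (9, 11), (1, 8), (1, 3), (3, 8), (4, 8), (4, 6), (6, 8)], 33, (3, 4, 5, 6, 7, 8), false),
  ([(1, 12), (12, 14), (2, 12), (2, 4), (4, 12), (4, 8), (8, 12), (4, 6), (6, 8), (8, 10), (10, 12)], 34, (1, 2, 3, 4, 8, 12), false),
  ([(1, 3), (3, 14), (4, 14), (4, 9), (9, 14), (4, 8), (4, 6), (6, 8), (9, 13), (9, 11), (11, 13)], 35, (9, 10, 11, 12, 13, 14), true),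
  ([(1, 3), (3, 14), (3, 13), (3, 11), (11, 13), (4, 11), (4, 6), (6, 11), (7, 11), (7, 9), (9, 11)], 37, (3, 4, 5, 6, 7, 11), false),
  ([(1, 3), (3, 14), (3, 7), (7, 14), (3, 5), (5, 7), (7, 12), (12, 14), (7, 11), (7, 9), (9, 11)], 37, (3, 7, 11, 12, 13, 14), false),
  ([(1, 3), (3, 14), (3, 7), (7, 14), (3, 5), (5, 7), (7, 12), (12, 14), (8, 12), (8, 10), (10, 12)], 39, (3, 7, 8, 12, 13, 14), false),
  ([(1, 12), (12, 14), (2, 12), (2, 4), (4, 12), (4, 11), (4, 6), (6, 11), (6, 10), (6, 8), (8, 10)], 40, (4, 5, 6, 10, 11, 12), true),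
  ([(1, 12), (12, 14), (2, 12), (2, 4), (4, 12), (5, 12), (5, 10), (10, 12), (5, 9), (5, 7), (7, 9)], 40, (5, 6, 7, 8, 9, 10), true),
  ([(1, 12), (12, 14), (1, 11), (1, 6), (6, 11), (2, 6), (2, 4), (4, 6), (6, 10), (6, 8), (8, 10)], 41, (1, 2, 3, 4, 5, 6), false),
  ([(1, 12), (12, 14), (1, 11), (1, 6), (6, 11), (1, 5), (1, 3), (3, 5), (7, 11), (7, 9), (9, 11)], 41, (6, 7, 8, 9, 10, 11), false),
  ([(1, 12), (12, 14), (1, 11), (1, 9), (9, 11), (1, 5), (5, 9), (1, 3), (3, 5), (5, 7), (7, 9)], 42, (1, 5, 9, 10, 11, 12), true),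
  ([(1, 3), (3, 14), (4, 14), (4, 12), (12, 14), (4, 11), (4, 6), (6, 11), (6, 10), (6, 8), (8, 10)], 43, (3, 4, 11, 12, 13, 14), false),
  ([(1, 3), (3, 14), (3, 13), (3, 11), (11, 13), (4, 11), (4, 9), (9, 11), (5, 9), (5, 7), (7, 9)], 44, (3, 4, 5, 9, 10, 11), false),
  ([(1, 3), (3, 14), (4, 14), (4, 9), (9, 14), (5, 9), (5, 7), (7, 9), (9, 13), (9, 11), (11, 13)], 45, (9, 10, 11, 12, 13, 14), true),
  ([(1, 3), (3, 14), (3, 13), (3, 5), (5, 13), (5, 12), (5, 7), (7, 12), (7, 11), (7, 9), (9, 11)], 46, (7, 8, 9, 10, 11, 12), true),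
  ([(1, 3), (3, 14), (4, 14), (4, 12), (12, 14), (4, 11), (4, 6), (6, 11), (7, 11), (7, 9), (9, 11)], 47, (4, 5, 6, 7, 11, 12), true),
  ([(1, 3), (3, 14), (4, 14), (4, 12), (12, 14), (5, 12), (5, 10), (10, 12), (5, 9), (5, 7), (7, 9)], 49, (4, 5, 9, 10, 11, 12), false),
  ([(1, 3), (3, 14), (4, 14), (4, 12), (12, 14), (5, 12), (5, 10), (10, 12), (6, 10), (6, 8), (8, 10)], 50, (3, 4, 5, 12, 13, 14), false),
  ([(1, 3), (3, 14), (3, 13), (3, 5), (5, 13), (5, 12), (5, 10), (10, 12), (5, 9), (5, 7), (7, 9)], 50, (5, 6, 7, 8, 9, 10), true),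
  ([(1, 9), (9, 14), (1, 8), (1, 3), (3, 8), (3, 7), (3, 5), (5, 7), (10, 14), (10, 12), (12, 14)], 56, (3, 4, 5, 6, 7, 8), true),
  ([(1, 9), (9, 14), (1, 8), (1, 3), (3, 8), (4, 8), (4, 6), (6, 8), (9, 13), (9, 11), (11, 13)], 56, (9, 10, 11, 12, 13, 14), true),
  ([(1, 9), (9, 14), (2, 9), (2, 7), (7, 9), (3, 7), (3, 5), (5, 7), (10, 14), (10, 12), (12, 14)], 58, (2, 3, 4, 5, 6, 7), false),
  ([(1, 9), (9, 14), (2, 9), (2, 7), (7, 9), (2, 6), (2, 4), (4, 6), (9, 13), (9, 11), (11, 13)], 58, (9, 10, 11, 12, 13, 14), true),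
  ([(1, 12), (12, 14), (1, 8), (8, 12), (1, 6), (6, 8), (2, 6), (2, 4), (4, 6), (8, 10), (10, 12)], 60, (1, 2, 6, 7, 8, 12), true),
  ([(1, 12), (12, 14), (2, 12), (2, 7), (7, 12), (2, 6), (2, 4), (4, 6), (7, 11), (7, 9), (9, 11)], 60, (7, 8, 9, 10, 11, 12), true),
  ([(1, 12), (12, 14), (1, 11), (1, 3), (3, 11), (3, 7), (7, 11), (3, 5), (5, 7), (7, 9), (9, 11)], 61, (1, 2, 3, 7, 11, 12), true),
  ([(1, 12), (12, 14), (2, 12), (2, 10), (10, 12), (2, 9), (2, 7), (7, 9), (3, 7), (3, 5), (5, 7)], 62, (1, 2, 9, 10, 11, 12), false),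
  ([(1, 12), (12, 14), (1, 11), (1, 9), (9, 11), (2, 9), (2, 7), (7, 9), (2, 6), (2, 4), (4, 6)], 62, (2, 3, 4, 5, 6, 7), true),
  ([(1, 12), (12, 14), (1, 11), (1, 9), (9, 11), (2, 9), (2, 4), (4, 9), (4, 8), (4, 6), (6, 8)], 63, (1, 2, 3, 4, 8, 9), false),
  ([(1, 12), (12, 14), (2, 12), (2, 10), (10, 12), (2, 6), (6, 10), (2, 4), (4, 6), (6, 8), (8, 10)], 64, (2, 4, 6, 8, 10, 12), true),
  ([(1, 12), (12, 14), (2, 12), (2, 4), (4, 12), (5, 12), (5, 7), (7, 12), (8, 12), (8, 10), (10, 12)], 64, (4, 5, 6, 7, 8, 12), false),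
  ([(1, 12), (12, 14), (2, 12), (2, 4), (4, 12), (4, 11), (4, 9), (9, 11), (4, 8), (4, 6), (6, 8)], 64, (4, 8, 9, 10, 11, 12), true),
  ([(1, 12), (12, 14), (1, 5), (5, 12), (1, 3), (3, 5), (5, 7), (7, 12), (7, 11), (7, 9), (9, 11)], 67, (1, 3, 5, 7, 12, 14), true),
  ([(1, 12), (12, 14), (1, 5), (5, 12), (1, 3), (3, 5), (5, 7), (7, 12), (8, 12), (8, 10), (10, 12)], 68, (1, 3, 5, 7, 12, 14), true),
  ([(1, 12), (12, 14), (1, 11), (1, 3), (3, 11), (4, 11), (4, 6), (6, 11), (6, 10), (6, 8), (8, 10)], 69, (1, 2, 3, 4, 11, 12), true),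
  ([(1, 12), (12, 14), (2, 12), (2, 4), (4, 12), (4, 11), (4, 6), (6, 11), (7, 11), (7, 9), (9, 11)], 69, (6, 7, 8, 9, 10, 11), false),
  ([(1, 12), (12, 14), (2, 12), (2, 4), (4, 12), (4, 11), (4, 9), (9, 11), (5, 9), (5, 7), (7, 9)], 70, (4, 5, 9, 10, 11, 12), true),
  ([(1, 12), (12, 14), (1, 11), (1, 6), (6, 11), (2, 6), (2, 4), (4, 6), (7, 11), (7, 9), (9, 11)], 71, (6, 7, 8, 9, 10, 11), false),
  ([(1, 12), (12, 14), (1, 11), (1, 9), (9, 11), (2, 9), (2, 4), (4, 9), (5, 9), (5, 7), (7, 9)], 73, (1, 2, 3, 4, 5, 9), false),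
  ([(1, 12), (12, 14), (1, 11), (1, 9), (9, 11), (1, 8), (1, 6), (6, 8), (1, 5), (1, 3), (3, 5)], 73, (1, 5, 6, 7, 8, 9), true),
  ([(1, 9), (9, 14), (1, 8), (1, 3), (3, 8), (3, 7), (3, 5), (5, 7), (9, 13), (9, 11), (11, 13)], 82, (9, 10, 11, 12, 13, 14), true),
  ([(1, 9), (9, 14), (2, 9), (2, 7), (7, 9), (3, 7), (3, 5), (5, 7), (9, 13), (9, 11), (11, 13)], 84, (9, 10, 11, 12, 13, 14), true),
  ([(1, 12), (12, 14), (1, 8), (8, 12), (1, 6), (6, 8), (1, 5), (1, 3), (3, 5), (8, 10), (10, 12)], 86, (1, 2, 3, 4, 5, 6), true),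
  ([(1, 6), (6, 14), (2, 6), (2, 4), (4, 6), (6, 10), (10, 14), (6, 8), (8, 10), (10, 12), (12, 14)], 86, (1, 6, 8, 10, 12, 14), false),
  ([(1, 12), (12, 14), (1, 11), (1, 9), (9, 11), (1, 8), (1, 6), (6, 8), (2, 6), (2, 4), (4, 6)], 86, (1, 8, 9, 10, 11, 12), true),
  ([(1, 12), (12, 14), (1, 11), (1, 3), (3, 11), (4, 11), (4, 6), (6, 11), (7, 11), (7, 9), (9, 11)], 88, (3, 4, 5, 6, 7, 11), false),
  ([(1, 12), (12, 14), (1, 11), (1, 3), (3, 11), (3, 10), (3, 8), (8, 10), (3, 7), (3, 5), (5, 7)], 88, (3, 7, 8, 9, 10, 11), true),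
  ([(1, 12), (12, 14), (2, 12), (2, 10), (10, 12), (2, 9), (2, 7), (7, 9), (2, 6), (2, 4), (4, 6)], 89, (2, 3, 4, 5, 6, 7), true),
  ([(1, 12), (12, 14), (2, 12), (2, 10), (10, 12), (3, 10), (3, 8), (8, 10), (3, 7), (3, 5), (5, 7)], 89, (2, 3, 7, 8, 9, 10), false),
  ([(1, 12), (12, 14), (2, 12), (2, 10), (10, 12), (2, 9), (2, 4), (4, 9), (4, 8), (4, 6), (6, 8)], 91, (1, 2, 9, 10, 11, 12), false),
  ([(1, 12), (12, 14), (2, 12), (2, 10), (10, 12), (3, 10), (3, 5), (5, 10), (6, 10), (6, 8), (8, 10)], 92, (2, 3, 4, 5, 6, 10), false),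
  ([(1, 12), (12, 14), (2, 12), (2, 4), (4, 12), (5, 12), (5, 7), (7, 12), (7, 11), (7, 9), (9, 11)], 93, (7, 8, 9, 10, 11, 12), true),
  ([(1, 12), (12, 14), (1, 11), (1, 3), (3, 11), (4, 11), (4, 9), (9, 11), (4, 8), (4, 6), (6, 8)], 94, (1, 2, 3, 4, 11, 12), true),
  ([(1, 12), (12, 14), (1, 11), (1, 3), (3, 11), (3, 10), (3, 5), (5, 10), (6, 10), (6, 8), (8, 10)], 97, (3, 4, 5, 6, 10, 11), true),
  ([(1, 12), (12, 14), (1, 11), (1, 3), (3, 11), (4, 11), (4, 9), (9, 11), (5, 9), (5, 7), (7, 9)], 99, (1, 2, 3, 4, 11, 12), true),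
  ([(1, 12), (12, 14), (2, 12), (2, 10), (10, 12), (2, 9), (2, 4), (4, 9), (5, 9), (5, 7), (7, 9)], 101, (1, 2, 9, 10, 11, 12), false),
  ([(1, 6), (6, 14), (1, 5), (1, 3), (3, 5), (6, 10), (10, 14), (6, 8), (8, 10), (10, 12), (12, 14)], 105, (1, 6, 8, 10, 12, 14), false),
  ([(1, 6), (6, 14), (2, 6), (2, 4), (4, 6), (7, 14), (7, 9), (9, 14), (10, 14), (10, 12), (12, 14)], 106, (6, 7, 8, 9, 10, 14), false),
  ([(1, 6), (6, 14), (2, 6), (2, 4), (4, 6), (6, 13), (6, 11), (11, 13), (6, 10), (6, 8), (8, 10)], 106, (6, 10, 11, 12, 13, 14), true),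
  ([(1, 12), (12, 14), (1, 11), (1, 3), (3, 11), (3, 10), (3, 8), (8, 10), (4, 8), (4, 6), (6, 8)], 109, (3, 4, 5, 6, 7, 8), false),
  ([(1, 12), (12, 14), (2, 12), (2, 10), (10, 12), (3, 10), (3, 8), (8, 10), (4, 8), (4, 6), (6, 8)], 111, (3, 4, 5, 6, 7, 8), false),
  ([(1, 12), (12, 14), (2, 12), (2, 10), (10, 12), (3, 10), (3, 5), (5, 10), (5, 9), (5, 7), (7, 9)], 113, (5, 6, 7, 8, 9, 10), true),
  ([(1, 12), (12, 14), (1, 11), (1, 3), (3, 11), (3, 10), (3, 5), (5, 10), (5, 9), (5, 7), (7, 9)], 116, (5, 6, 7, 8, 9, 10), true),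
  ([(1, 6), (6, 14), (1, 5), (1, 3), (3, 5), (7, 14), (7, 9), (9, 14), (10, 14), (10, 12), (12, 14)], 119, (6, 7, 8, 9, 10, 14), false),
  ([(1, 6), (6, 14), (1, 5), (1, 3), (3, 5), (6, 13), (6, 11), (11, 13), (6, 10), (6, 8), (8, 10)], 119, (6, 10, 11, 12, 13, 14), true),
  ([(1, 6), (6, 14), (2, 6), (2, 4), (4, 6), (7, 14), (7, 9), (9, 14), (9, 13), (9, 11), (11, 13)], 120, (9, 10, 11, 12, 13, 14), true),
  ([(1, 6), (6, 14), (2, 6), (2, 4), (4, 6), (6, 13), (6, 11), (11, 13), (7, 11), (7, 9), (9, 11)], 121, (6, 7, 8, 9, 10, 11), false),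
  ([(1, 6), (6, 14), (1, 5), (1, 3), (3, 5), (7, 14), (7, 9), (9, 14), (9, 13), (9, 11), (11, 13)], 126, (9, 10, 11, 12, 13, 14), true),
  ([(1, 6), (6, 14), (1, 5), (1, 3), (3, 5), (6, 13), (6, 11), (11, 13), (7, 11), (7, 9), (9, 11)], 127, (6, 7, 8, 9, 10, 11), false),
  ([(1, 6), (6, 14), (2, 6), (2, 4), (4, 6), (6, 13), (6, 8), (8, 13), (9, 13), (9, 11), (11, 13)], 128, (6, 7, 8, 9, 13, 14), true),
  ([(1, 6), (6, 14), (2, 6), (2, 4), (4, 6), (7, 14), (7, 12), (12, 14), (7, 11), (7, 9), (9, 11)], 129, (6, 7, 11, 12, 13, 14), false),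
  ([(1, 6), (6, 14), (1, 5), (1, 3), (3, 5), (6, 13), (6, 8), (8, 13), (9, 13), (9, 11), (11, 13)], 130, (6, 7, 8, 9, 13, 14), true),
  ([(1, 6), (6, 14), (1, 5), (1, 3), (3, 5), (7, 14), (7, 12), (12, 14), (7, 11), (7, 9), (9, 11)], 131, (6, 7, 11, 12, 13, 14), false),
  ([(1, 6), (6, 14), (2, 6), (2, 4), (4, 6), (6, 13), (6, 8), (8, 13), (8, 12), (8, 10), (10, 12)], 132, (8, 9, 10, 11, 12, 13), true),
  ([(1, 6), (6, 14), (2, 6), (2, 4), (4, 6), (7, 14), (7, 12), (12, 14), (8, 12), (8, 10), (10, 12)], 133, (7, 8, 9, 10, 11, 12), false),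
  ([(1, 6), (6, 14), (1, 5), (1, 3), (3, 5), (6, 13), (6, 8), (8, 13), (8, 12), (8, 10), (10, 12)], 134, (8, 9, 10, 11, 12, 13), true),
  ([(1, 6), (6, 14), (1, 5), (1, 3), (3, 5), (7, 14), (7, 12), (12, 14), (8, 12), (8, 10), (10, 12)], 135, (7, 8, 9, 10, 11, 12), false)]
/-- Decidable version of `Edge`. -/
def edgeB (N : ℕ) (l : List (ℕ × ℕ)) (i j : ℕ) : Bool :=
  (Nat.ble 1 i && (Nat.beq j (i + 1) && Nat.ble j N)) || ((Nat.beq i 1 && Nat.beq j N) ||
    l.any fun p => Nat.beq p.1 i && Nat.beq p.2 j)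

lemma mem_any {l : List (ℕ × ℕ)} {i j : ℕ} :
    (l.any fun p => Nat.beq p.1 i && Nat.beq p.2 j) = true ↔ (i, j) ∈ l := by
  rw [List.any_eq_true]
  constructor
  · rintro ⟨p, hp, h⟩
    rw [Bool.and_eq_true, Nat.beq_eq, Nat.beq_eq] at h
    obtain ⟨h1, h2⟩ := h
    rw [← h1, ← h2]
    exact hp
  · intro h
    exact ⟨_, h, by simp⟩

lemma edgeB_iff {N : ℕ} {l : List (ℕ × ℕ)} {i j : ℕ} :
    edgeB N l i j = true ↔ Edge N l.toFinset i j := by
  rw [edgeB, Edge, Bool.or_eq_true, Bool.or_eq_true, mem_any, List.mem_toFinset]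
  simp only [Bool.and_eq_true, Nat.ble_eq, Nat.beq_eq]

/-- Decidable version of `Cross`. -/
def crossB (a b c d : ℕ) : Bool :=
  (Nat.blt a c && (Nat.blt c b && Nat.blt b d)) || (Nat.blt c a && (Nat.blt a d && Nat.blt d b))

lemma crossB_iff {a b c d : ℕ} : crossB a b c d = true ↔ Cross (a, b) (c, d) := by
  simp only [crossB, Cross, Bool.or_eq_true, Bool.and_eq_true, Nat.blt_eq]

/-- Decidable version of the condition that `l` is a triangulation. -/
def triB (l : List (ℕ × ℕ)) : Bool :=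
  (l.all fun p => Nat.ble 1 p.1 && (Nat.ble (p.1 + 2) p.2 && (Nat.ble p.2 14 &&
    !(Nat.beq p.1 1 && Nat.beq p.2 14)))) &&
  ((l.all fun p => l.all fun q => !crossB p.1 p.2 q.1 q.2) &&
  ((List.range' 1 14).all fun i => (List.range' (i + 2) (13 - i)).all fun j =>
    (Nat.beq i 1 && Nat.beq j 14) || ((l.any fun q => crossB i j q.1 q.2) ||
      l.any fun p => Nat.beq p.1 i && Nat.beq p.2 j)))

lemma triB_spec {l : List (ℕ × ℕ)} (h : triB l = true) : IsTriangulation 14 l.toFinset := by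
  rw [triB, Bool.and_eq_true, Bool.and_eq_true, List.all_eq_true, List.all_eq_true,
    List.all_eq_true] at h
  obtain ⟨h1, h2, h3⟩ := h
  refine ⟨?_, ?_, ?_⟩
  · intro p hp
    rw [List.mem_toFinset] at hp
    have := h1 p hp
    simp only [Bool.and_eq_true, Nat.ble_eq, Nat.beq_eq, Bool.not_eq_true',
      Bool.and_eq_false_imp] at this
    obtain ⟨a1, a2, a3, a4⟩ := this
    refine ⟨a1, a2, a3, ?_⟩
    rintro ⟨b1, b2⟩
    have := a4 b1
    rw [b2] at this
    exact absurd this (by decide)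
  · intro p hp q hq hc
    rw [List.mem_toFinset] at hp hq
    have := h2 p hp
    rw [List.all_eq_true] at this
    have := this q hq
    rw [(crossB_iff (a := p.1) (b := p.2) (c := q.1) (d := q.2)).2 hc] at this
    exact absurd this (by decide)
  · rintro ⟨i, j⟩ ⟨hd1, hd2, hd3, hd4⟩ hn
    simp only at hd1 hd2 hd3 hd4
    rw [List.mem_toFinset]
    have h4 := h3 i (by rw [List.mem_range'_1]; omega)
    rw [List.all_eq_true] at h4
    have h5 := h4 j (by rw [List.mem_range'_1]; omega)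
    rw [Bool.or_eq_true, Bool.or_eq_true, mem_any, Bool.and_eq_true, Nat.beq_eq, Nat.beq_eq,
      List.any_eq_true] at h5
    rcases h5 with h5 | ⟨q, hq, hc⟩ | h5
    · exact absurd h5 hd4
    · exact absurd (crossB_iff.1 hc) (hn q (List.mem_toFinset.2 hq))
    · exact h5

/-- Decidable version of the condition that `l` is colorful. -/
def colB (l : List (ℕ × ℕ)) : Bool :=
  (List.range' 1 14).all fun i => (List.range' (i + 1) (14 - i)).all fun j =>
    !edgeB 14 l i j || (List.range' (j + 1) (14 - j)).all fun k =>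
      (!edgeB 14 l j k) || ((!edgeB 14 l i k) ||
        (!(Nat.beq (i % 3) (j % 3)) && (!(Nat.beq (j % 3) (k % 3)) &&
          !(Nat.beq (i % 3) (k % 3)))))

lemma colB_spec {l : List (ℕ × ℕ)} (hT : IsTriangulation 14 l.toFinset) (h : colB l = true) :
    Colorful 14 l.toFinset := by
  intro i j k hij hjk h1 h2 h3
  have b1 := edge_bounds hT hij h1
  have b2 := edge_bounds hT hjk h2
  rw [colB, List.all_eq_true] at h
  have h4 := h i (by rw [List.mem_range'_1]; omega)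
  rw [List.all_eq_true] at h4
  have h5 := h4 j (by rw [List.mem_range'_1]; omega)
  rw [edgeB_iff.2 h1, Bool.not_true, Bool.false_or, List.all_eq_true] at h5
  have h6 := h5 k (by rw [List.mem_range'_1]; omega)
  rw [edgeB_iff.2 h2, edgeB_iff.2 h3, Bool.not_true, Bool.false_or, Bool.false_or] at h6
  simp only [Bool.and_eq_true, Bool.not_eq_true'] at h6
  obtain ⟨c1, c2, c3⟩ := h6
  refine ⟨?_, ?_, ?_⟩ <;> intro hh
  · rw [hh, Nat.beq_refl] at c1
    exact absurd c1 (by decide)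
  · rw [hh, Nat.beq_refl] at c2
    exact absurd c2 (by decide)
  · rw [hh, Nat.beq_refl] at c3
    exact absurd c3 (by decide)

/-- Decidable check of `T' = (T \ A) ∪ B`. -/
def replB (l l' A B : List (ℕ × ℕ)) : Bool :=
  (A.all fun p => l.any fun q => Nat.beq q.1 p.1 && Nat.beq q.2 p.2) &&
  ((l'.all fun p => (B.any fun q => Nat.beq q.1 p.1 && Nat.beq q.2 p.2) ||
    ((l.any fun q => Nat.beq q.1 p.1 && Nat.beq q.2 p.2) &&
      !(A.any fun q => Nat.beq q.1 p.1 && Nat.beq q.2 p.2))) &&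
  ((l.all fun p => (A.any fun q => Nat.beq q.1 p.1 && Nat.beq q.2 p.2) ||
    l'.any fun q => Nat.beq q.1 p.1 && Nat.beq q.2 p.2) &&
  (B.all fun p => l'.any fun q => Nat.beq q.1 p.1 && Nat.beq q.2 p.2)))

lemma replB_spec {l l' A B : List (ℕ × ℕ)} (h : replB l l' A B = true) :
    A.toFinset ⊆ l.toFinset ∧ l'.toFinset = (l.toFinset \ A.toFinset) ∪ B.toFinset := by
  simp only [replB, Bool.and_eq_true, List.all_eq_true, Bool.or_eq_true, mem_any,
    Bool.not_eq_true'] at h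
  obtain ⟨h1, h2, h3, h4⟩ := h
  constructor
  · intro p hp
    rw [List.mem_toFinset] at hp ⊢
    exact h1 p hp
  · ext p
    rw [Finset.mem_union, Finset.mem_sdiff, List.mem_toFinset, List.mem_toFinset,
      List.mem_toFinset, List.mem_toFinset]
    constructor
    · intro hp
      rcases h2 p hp with h | ⟨h, h'⟩
      · exact Or.inr h
      · refine Or.inl ⟨h, fun hA => ?_⟩
        rw [mem_any.2 (show (p.1, p.2) ∈ A from hA)] at h'
        exact absurd h' (by decide)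
    · rintro (⟨hp, hA⟩ | hp)
      · rcases h3 p hp with h | h
        · exact absurd h hA
        · exact h
      · exact h4 p hp

/-- Decidable check of a twist. -/
def twistB (l l' : List (ℕ × ℕ)) (h : ℕ × ℕ × ℕ × ℕ × ℕ × ℕ) (dir : Bool) : Bool :=
  match h with
  | (a, b, c, d, e, f) =>
    (Nat.blt a b && (Nat.blt b c && (Nat.blt c d && (Nat.blt d e && Nat.blt e f)))) &&
    ((edgeB 14 l a b && (edgeB 14 l b c && (edgeB 14 l c d && (edgeB 14 l d e &&
      (edgeB 14 l e f && edgeB 14 l a f))))) &&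
    (if dir then replB l l' [(a, c), (c, e), (a, e)] [(b, d), (d, f), (b, f)]
      else replB l l' [(b, d), (d, f), (b, f)] [(a, c), (c, e), (a, e)]))

lemma twistB_spec {l l' : List (ℕ × ℕ)} {h : ℕ × ℕ × ℕ × ℕ × ℕ × ℕ} {dir : Bool}
    (H : twistB l l' h dir = true) : Twist 14 l.toFinset l'.toFinset := by
  obtain ⟨a, b, c, d, e, f⟩ := h
  simp only [twistB, Bool.and_eq_true, Nat.blt_eq, edgeB_iff] at H
  obtain ⟨⟨h1, h2, h3, h4, h5⟩, ⟨e1, e2, e3, e4, e5, e6⟩, H⟩ := H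
  refine ⟨a, b, c, d, e, f, h1, h2, h3, h4, h5, e1, e2, e3, e4, e5, e6, ?_⟩
  cases dir with
  | true =>
    left
    have := replB_spec (by simpa using H : replB l l' [(a, c), (c, e), (a, e)]
      [(b, d), (d, f), (b, f)] = true)
    simpa using this
  | false =>
    right
    have := replB_spec (by simpa using H : replB l l' [(b, d), (d, f), (b, f)]
      [(a, c), (c, e), (a, e)] = true)
    simpa using this

/-- The `t`-th list of the certificate. -/
def lst (t : ℕ) : List (ℕ × ℕ) := (data.getD t ([], 0, (0, 0, 0, 0, 0, 0), true)).1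

/-- The complete check of the certificate. -/
def checkB : Bool :=
  (List.range 140).all fun t =>
    let D := data.getD t ([], 0, (0, 0, 0, 0, 0, 0), true)
    triB D.1 && (colB D.1 && (Nat.beq t 0 || (Nat.blt D.2.1 t &&
      twistB D.1 (lst D.2.1) D.2.2.1 D.2.2.2)))

set_option maxRecDepth 100000 in
theorem check_true : checkB = true := by decide +kernel

set_option maxRecDepth 100000 in
theorem enum_check : ((enum 13 1 14).all fun l => data.any fun D => decide (D.1 = l)) = true := by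
  decide +kernel

lemma good (t : ℕ) (ht : t < 140) :
    (IsTriangulation 14 (lst t).toFinset ∧ Colorful 14 (lst t).toFinset) ∧
      (t ≠ 0 → ∃ p < t, Twist 14 (lst t).toFinset (lst p).toFinset) := by
  have h := check_true
  rw [checkB, List.all_eq_true] at h
  have h1 := h t (List.mem_range.2 ht)
  simp only [Bool.and_eq_true, Bool.or_eq_true, Nat.blt_eq, Nat.beq_eq] at h1
  obtain ⟨h2, h3, h4⟩ := h1
  have hT := triB_spec h2
  refine ⟨⟨hT, colB_spec hT h3⟩, fun h0 => ?_⟩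
  rcases h4 with h4 | ⟨h4, h5⟩
  · exact absurd h4 h0
  · exact ⟨_, h4, twistB_spec h5⟩

/-- The `t`-th vertex. -/
def vert (t : ℕ) (ht : t < 140) :
    {T : Finset (ℕ × ℕ) // IsTriangulation 14 T ∧ Colorful 14 T} :=
  ⟨(lst t).toFinset, (good t ht).1⟩

lemma reach (t : ℕ) : ∀ ht : t < 140,
    (twistGraph 14).Reachable (vert t ht) (vert 0 (by omega)) := by
  induction t using Nat.strong_induction_on with
  | _ t ih =>
    intro ht
    by_cases h0 : t = 0
    · subst h0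
      exact SimpleGraph.Reachable.refl _
    obtain ⟨p, hp, htw⟩ := (good t ht).2 h0
    have h1 := ih p hp (by omega)
    by_cases heq : vert t ht = vert p (by omega)
    · rw [heq]
      exact h1
    · refine SimpleGraph.Reachable.trans (SimpleGraph.Adj.reachable ?_) h1
      rw [twistGraph, SimpleGraph.fromRel_adj]
      exact ⟨heq, Or.inl htw⟩

lemma surj (T : {T : Finset (ℕ × ℕ) // IsTriangulation 14 T ∧ Colorful 14 T}) :
    ∃ (t : ℕ) (ht : t < 140), T = vert t ht := by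
  obtain ⟨T, hT, hC⟩ := T
  obtain ⟨l, hl, hl'⟩ := mem_enum hT hC 13 1 14 (by omega) (by omega) (Or.inr (Or.inl ⟨rfl, rfl⟩))
  have h := enum_check
  rw [List.all_eq_true] at h
  have h1 := h l hl
  rw [List.any_eq_true] at h1
  obtain ⟨D, hD, hDl⟩ := h1
  rw [decide_eq_true_eq] at hDl
  obtain ⟨t, ht, htD⟩ := List.mem_iff_getElem.1 hD
  have hlen : data.length = 140 := by decide +kernel
  refine ⟨t, by omega, Subtype.ext ?_⟩
  show T = (lst t).toFinset
  have e : lst t = l := by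
    rw [lst, List.getD_eq_getElem _ _ ht, htD, hDl]
  rw [e]
  ext p
  rw [List.mem_toFinset, hl']
  constructor
  · intro hp
    have hd := hT.1 p hp
    refine ⟨hp, hd.1, hd.2.2.1, ?_⟩
    rintro rfl
    exact hd.2.2.2 ⟨rfl, rfl⟩
  · exact fun h => h.1

/-- **Main theorem.** The graph `𝓗_14` is connected. As `14 ≥ 8` and `14 ≡ 2 (mod 3)`, this
disproves the statement that `𝓗_N` is disconnected for all `N ≥ 8` with `N ≡ 2 (mod 3)`. -/
theorem result : (twistGraph 14).Connected ∧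
    ¬ ∀ N : ℕ, 8 ≤ N → N % 3 = 2 → ¬ (twistGraph N).Connected := by
  have hcon : (twistGraph 14).Connected := by
    rw [SimpleGraph.connected_iff]
    refine ⟨?_, ⟨vert 0 (by omega)⟩⟩
    intro T T'
    obtain ⟨t, ht, rfl⟩ := surj T
    obtain ⟨t', ht', rfl⟩ := surj T'
    exact (reach t ht).trans (reach t' ht').symm
  exact ⟨hcon, fun h => h 14 (by norm_num) (by norm_num) hcon⟩

end Pool.Agent.Results.MP_b57ad3_co.Fourteen
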